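import Pool.Agent.J4H44.WS.Rot

/-!
# All twists `d y^ℓ = g(a x^m)` over large `p`-adic fields: a section only if there is a rational point

Let `ℓ` be a prime number, `m = ℓ^j` with `j ≥ 1`, and let `E ≥ 1`, `m E ≥ 3`.

**Theorem.**  There is a number `N`, which depends only on `ℓ`, `j` and `E`, such that the following is true for
every finite extension `k` of `ℚ_p`, `p ≠ ℓ`, whose residue field has more than `N` elements.  Let `A` be
the valuation ring of `k` and let `g ∈ A[x]` be a polynomial of degree `E` with invertible leading coefficient
such that the reduction of `g(x^m)` is separable.  For ALL `a, d ∈ k^×` the smooth projective curve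

  `C_{a,d} : d y^ℓ = g(a x^m)`

of genus `(ℓ - 1)(m E - 2)/2` has a rational point, or neither `C_{a,d}` nor any smooth curve over `k` which
dominates it, nor any of their open subcurves, has a section of the map from the fundamental group to `G_k`.

These curves are all the twists of the curve `y^ℓ = g(x^m)` by its automorphisms `(x, y) ↦ (ζ x, ξ y)`,
`ζ^m = 1`, `ξ^ℓ = 1`.  So for every one of these twists `π₁(C_{a,d}) → G_k` has a section if and only if
`C_{a,d}` has a rational point, and as `N` does not depend on `k` the same is true over all finite extensions
of `k`: this is the existence part of the `p`-adic section conjecture for all twists by rotations.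

In the proof there are two cases.  If the valuation of `a` is divisible by `m`, one may assume that `a` is a
unit, and the curve is a twist `d y^ℓ = f(x)` of a curve with good reduction; there is a rational point
by Weil's bound and Hensel's lemma, unless the valuation of `d` is not divisible by `ℓ` and `f` has no root
in the residue field, and then there is no section (`MP_896029_ag/PointsOrNoSections`, library
`Pool.Agent.J4H44.WS.Loc`).  If the valuation of `a` is not divisible by `m`, every section of the
geometrically pro-`ℓ` fundamental group is the section of a rational point with `x = 0` or `x = ∞`: this is the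
theorem of the starting hand-in `MP_c385f6_ag.TwistsByRotations` (library `Pool.Agent.R925.L`).

**Relation to `PointsOrNoSections`.**  That hand-in has one parameter `a` (the twists `a y^n = f(x)` by
`y ↦ ξ y`), composite squarefree `n` and arbitrary `f`; here are two parameters, `ℓ` is prime and
`f(x) = g(x^m)`.

**Conventions.**  Let `U` be a smooth geometrically connected curve over `k` with function field `F`,
let `Ω` be an algebraic closure of `F`, and let `F_U` be the maximal extension of `F` inside `Ω` which is
unramified over the closed points of `U`, that is, over their local rings, which are valuation rings of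
`F`.  Then `π₁(U) = Gal(F_U/F)`, and the map `π₁(U) → G_k` is the restriction of automorphisms to the
algebraic closure of `k` in `Ω`.  The valuation rings of `F` over `k` other than `F` itself are the local
rings of the closed points of the smooth projective curve with function field `F`, and their residue
fields are the residue fields of the points; so `NoRationalPlace` says that this curve has no rational
point (a rational point on a curve which dominates `C_{a,d}` gives one on `C_{a,d}`).
-/

set_option autoImplicit false

open Polynomial

namespace Pool.Agent.Results.MP_896029_ag.AllTwistsByRotations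

section definitions

variable (k F Ω : Type) [Field k] [Field F] [Field Ω] [Algebra k F] [Algebra F Ω]
  [Algebra k Ω]

/-- The inertia group of the valuation ring `W` of `Ω`, as a subgroup of `Gal(Ω/F)`: the
automorphisms of `Ω` over `F` that map `W` onto itself and act as the identity on its residue
field. -/
noncomputable def inertia (W : ValuationSubring Ω) : Subgroup (Ω ≃ₐ[F] Ω) :=
  (W.inertiaSubgroup F).map (W.decompositionSubgroup F).subtype

/-- `F_U`, for a set `U` of valuation rings of `F`: the elements of `Ω` fixed by the inertia groups
of all valuation rings `W` of `Ω` with `W ∩ F ∈ U`.  If `Ω` is an algebraic closure of a field `F`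
of characteristic zero, this is the maximal extension of `F` in `Ω` unramified over `U`. -/
noncomputable def unramified (U : Set (ValuationSubring F)) : IntermediateField F Ω :=
  ⨅ W : {W : ValuationSubring Ω // W.comap (algebraMap F Ω) ∈ U},
    IntermediateField.fixedField (inertia F Ω W.1)

/-- `τ` acts as `σ` on the common elements of `K` and `M`: `τ z = σ c` if `z = c` in `Ω`. -/
def ActsAs {K M Ω : Type} [Field K] [Field M] [Field Ω] (i : K →+* Ω) (j : M →+* Ω) (σ : K → K)
    (τ : M → M) : Prop :=
  ∀ c z, j z = i c → j (τ z) = i (σ c)

/-- Let `k ⊆ K ⊆ Ω` and `F ⊆ N ⊆ Ω` be fields.  A splitting of `Gal(N/F) → Gal(K/k)`: a continuous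
homomorphism `s` from `Gal(K/k)` to `Gal(N/F)` such that `s(σ)` acts as `σ` on the elements of
`K ∩ N`. -/
structure Splitting (K N : Type) [Field K] [Field N] [Algebra k K] [Algebra F N] [Algebra K Ω]
    [Algebra N Ω] where
  /-- the homomorphism `Gal(K/k) → Gal(N/F)` -/
  toHom : (K ≃ₐ[k] K) →* (N ≃ₐ[F] N)
  cont : Continuous toHom
  compat : ∀ σ : K ≃ₐ[k] K, ActsAs (algebraMap K Ω) (algebraMap N Ω) σ (toHom σ)

end definitions

section curves

variable {k : Type} [Field k]

/-- `(x, y)` is a point with coordinates in the field `F` of the curve `d y^ℓ = g(a x^m)` over `k`. -/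
def IsPoint (ℓ m : ℕ) (a d : k) (g : k[X]) {F : Type} [Field F] [Algebra k F] (x y : F) : Prop :=
  algebraMap k F d * y ^ ℓ = aeval (algebraMap k F a * x ^ m) g

/-- Let `F` be any field over `k` that contains a point `(x, y)` of the curve, for instance the
function field of the curve or of a curve that dominates it.  Then no valuation ring `O` of `F` with
`k ⊆ O` has the residue field `k`. -/
def NoRationalPlace (ℓ m : ℕ) (a d : k) (g : k[X]) : Prop :=
  ∀ (F : Type) [Field F] [Algebra k F] (x y : F), IsPoint ℓ m a d g x y →
    ∀ O : ValuationSubring F, (∀ c : k, algebraMap k F c ∈ O) →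
      ¬ ∀ u ∈ O, ∃ c : k, u - algebraMap k F c ∈ O.nonunits

/-- Let `F` be any field over `k` that contains a point `(x, y)` of the curve, for instance the
function field of the curve or of a curve that dominates it, and let `Ω` be an algebraic closure of
`F`.  Then for every set `U` of valuation rings of `F` over `k` there is no section of
`π₁(U) → G_k`. -/
def NoSection (ℓ m : ℕ) (a d : k) (g : k[X]) : Prop :=
  ∀ (F Ω : Type) [Field F] [Field Ω] [Algebra k F] [Algebra F Ω] [Algebra k Ω]
    [IsScalarTower k F Ω] [IsAlgClosure F Ω] (x y : F)
    (U : Set (ValuationSubring F)), IsPoint ℓ m a d g x y →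
    (∀ O ∈ U, ∀ c : k, algebraMap k F c ∈ O) →
      IsEmpty (Splitting k F Ω (algebraicClosure k Ω) (unramified F Ω U))

end curves

/-- For all prime numbers `ℓ` and all `j ≥ 1`, `E` with `E ℓ^j ≥ 3` there is an `N` such that for all complete
discrete valuation rings `A` with a finite residue field of more than `N` elements in which `ℓ` is a unit,
with fraction field `k` of characteristic zero, for all `g ∈ A[x]` of degree `E` with invertible leading
coefficient such that the reduction of `g(x^(ℓ^j))` is separable, and for all `a, d ∈ k^×`: if the curve
`d y^ℓ = g(a x^(ℓ^j))` has no rational place, then it has no sections. -/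
theorem result (ℓ : ℕ) [Fact ℓ.Prime] (j E : ℕ) (hj : 1 ≤ j) (h3 : 3 ≤ E * ℓ ^ j) :
    ∃ N : ℕ, ∀ (A k : Type) [CommRing A] [IsDomain A] [IsDiscreteValuationRing A]
      [IsAdicComplete (IsLocalRing.maximalIdeal A) A] [Finite (IsLocalRing.ResidueField A)]
      [Field k] [CharZero k] [Algebra A k] [IsFractionRing A k],
      N < Nat.card (IsLocalRing.ResidueField A) → IsUnit (ℓ : A) →
      ∀ g : A[X], IsUnit g.leadingCoeff → g.natDegree = E →
      ((expand A (ℓ ^ j) g).map (IsLocalRing.residue A)).Separable →
      ∀ a d : k, a ≠ 0 → d ≠ 0 →
        NoRationalPlace ℓ (ℓ ^ j) a d (g.map (algebraMap A k)) →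
          NoSection ℓ (ℓ ^ j) a d (g.map (algebraMap A k)) := by
  obtain ⟨N, hN⟩ := Pool.Agent.J4H44.WS.dichR ℓ j E hj h3
  refine ⟨N, ?_⟩
  intro A k _ _ _ _ _ _ _ _ _ hcard hu g hlc hgE hs a d ha hd hno F Ω _ _ _ _ _ _ _ x y U hxy hU
  have hcl : IsAlgClosed Ω := IsAlgClosure.isAlgClosed F
  have halg : Algebra.IsAlgebraic F Ω := IsAlgClosure.isAlgebraic
  have h5 := hN A k hu hcard g hlc hgE hs a d ha hd hno F Ω U hU x y hxy
  exact ⟨fun s => h5.false ⟨s.toHom, s.cont, s.compat⟩⟩

end Pool.Agent.Results.MP_896029_ag.AllTwistsByRotations
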