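import Pool.Agent.J4H44.DG.Num
import Pool.Agent.J4H44.DG.Gcd
import Pool.Agent.J4H44.FP.Plc

/-!
# Every degree monoid occurs, for points and for sections

For a smooth projective curve `X` over a field `k` let `deg(X) ⊆ ℕ` be the monoid generated by the
degrees `[L : k]` of the finite extensions `L/k` with `X(L) ≠ ∅`; it is the monoid of the degrees of
the effective zero-cycles on `X`.  If `k` is a number field or a `p`-adic field, the section conjecture
for `X` over all finite extensions of `k` implies: if `π₁(X_L) → G_L` has a section, then
`[L : k] ∈ deg(X)`.

**Theorem.**  Let `S ⊆ ℕ` be a submonoid, for instance a numerical semigroup, and let `n > 1` be a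
squarefree element of `S`.

(1) Let `k` be the fraction field of a discrete valuation ring of characteristic 0 whose residue field is
finite of characteristic not dividing `n`, for instance a finite extension of `ℚ_p` or a number field.
There is a monic separable polynomial `f` over `k`, `n ∣ deg f ≥ 6`, such that for ALL `a ∈ k` whose
valuation is prime to `n` the curve

  `X_a : a y^n = f(x)`

has `deg(X_a) = S`, and such that over all finite extensions `L/k` with `[L : k] ∉ S` the fundamental
group of `X_a`, and of every smooth curve over `L` which dominates `X_a` or is an open part of such a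
curve, has no section.

(2) Let `K` be a number field.  There is a monic separable polynomial `f` with coefficients in `𝓞_K`,
`n ∣ deg f ≥ 6`, such that the same is true for the curves `X_a` over `K` for all `a ∈ 𝓞_K` outside a
set of density zero.

(3) `S` contains such an `n` if the greatest common divisor of its elements is squarefree, and such an
`n` prime to `p` if this is in addition not divisible by the prime `p`.

So over every number field and every `p`-adic field there are, for every numerical semigroup `S` (and for
every `S ≠ 0` whose gcd is squarefree, and prime to `p`), curves `X` of genus at least 2 with the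
following property: `S` is the set of degrees of the effective zero-cycles on `X`, it is generated by the
degrees of the finite extensions `L` over which `X` has a point, and also by the degrees of those over
which its fundamental group has a section.  Over all `L` with `[L : k] ∉ S` the (valuative) section
conjecture is true for `X` and for all curves over `X`: there is no section and there is no valuation
with residue field `L`.  For example there are curves of index 1 over `ℚ` and over `ℚ_p` which have no
sections over all fields of degree `1, …, D` (`S = {0, D + 1, D + 2, …}`), and curves which have neither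
over the fields of degree 1 and 3 but have points of degree 2 and 5 (`S = {0, 2, 4, 5, 6, …}`).  If the
gcd is 1 this is not an abelian phenomenon: Stix proved that the index of a curve over a `p`-adic field
whose fundamental group has a section is a power of `p`, but here the index is 1.

**Relation to earlier hand-ins.**  `MP_896029_ag/DegreesOfSections` treats curves
`a y^n = f(x)`, `b_i z_i^{m_i} = g_i(x)` with all exponents divisible by one prime number `ℓ`, over number
fields, for almost all `a`, and it gives the extensions `L` whose degree is not in the semigroup generated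
by `ℓ` and by the lengths of the cycles of an element of `G_K` on the zeros of `f`.  New here are the
composite exponents `n` (the monoid contains `n` but none of the prime divisors of `n` need be in it), the
statement over local fields with all `a` of valuation prime to `n`, and that every `S` occurs, as the
monoid of the points and with no sections outside of it.

**Conventions.**  As in `DegreesOfSections`.  Let `U` be a smooth geometrically connected curve over `k`
with function field `F`, let `Ω` be an algebraic closure of `F`, and let `F_U` be the maximal extension of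
`F` inside `Ω` which is unramified over the closed points of `U`, that is, over their local rings, which
are valuation rings of `F`.  Then `π₁(U) = Gal(F_U/F)`, and the map `π₁(U) → G_k` is the restriction of
automorphisms to the algebraic closure of `k` in `Ω`.  The valuation rings of `F` over `k` other than `F`
itself are the local rings of the closed points of the smooth projective curve with function field `F`,
and their residue fields are the residue fields of the points; so `NoRationalPlace` says that this curve
has no rational point.

**Proof.**  `S` is generated by `n` and a finite set `G` of positive numbers, whose sum may be assumed to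
be at least 6 and divisible by `n`.  Let `f` be the product of monic polynomials `P_g`, `g ∈ G`, of degree
`g` with irreducible reductions.  The roots of `P_g` are points of degree `g` on `X_a`, and the fibre over
`x = 0` is an effective zero-cycle of degree `n`.  Conversely let `[L : k] ∉ S`.  As the sum of the local
degrees is `[L : k]`, there is a discrete valuation ring `B` of `L` over `A` with ramification index `e`
and residue degree `d`, `e d ∉ S`.  So `n` does not divide `e`; as `n` is squarefree, some prime divisor
`ℓ` of `n` does not divide `e`, hence not the valuation of `a` in `B`.  And `f` has no root in the residue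
field of `B`, since no `g ∈ G` divides `d`.  So the curve `a y^ℓ = f(x)` has neither points nor sections
over `L` by the local theorem used for `DegreesOfSections`.  For (2) let `σ ∈ G_K` induce the Frobenius
automorphism of a prime `v₀` modulo which all `P_g` are irreducible; then `σ` permutes the roots of every
`P_g` cyclically.  By Chebotarev's theorem almost all `a` are divisible exactly once by some prime `v` not
dividing `n` with Frobenius `σ` of degree one, and one argues with `v` as before.
-/

set_option autoImplicit false

open Polynomial NumberField IsDedekindDomain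

namespace Pool.Agent.Results.MP_896029_ag.DegreeMonoids

section definitions

variable (k F Ω : Type) [Field k] [Field F] [Field Ω] [Algebra k F] [Algebra F Ω]
  [Algebra k Ω]

/-- The inertia group of the valuation ring `W` of `Ω`, as a subgroup of `Gal(Ω/F)`: the
automorphisms of `Ω` over `F` that map `W` onto itself and act as the identity on its residue
field. -/
noncomputable def inertia (W : ValuationSubring Ω) : Subgroup (Ω ≃ₐ[F] Ω) :=
  (W.inertiaSubgroup F).map (W.decompositionSubgroup F).subtype

/-- `F_U`, for a set `U` of valuation rings of `F`: the elements of `Ω` fixed by the inertia groups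
of all valuation rings `W` of `Ω` with `W ∩ F ∈ U`.  If `Ω` is an algebraic closure of a field `F`
of characteristic zero, this is the maximal extension of `F` in `Ω` unramified over `U`. -/
noncomputable def unramified (U : Set (ValuationSubring F)) : IntermediateField F Ω :=
  ⨅ W : {W : ValuationSubring Ω // W.comap (algebraMap F Ω) ∈ U},
    IntermediateField.fixedField (inertia F Ω W.1)

/-- `τ` acts as `σ` on the common elements of `K` and `M`: `τ z = σ c` if `z = c` in `Ω`. -/
def ActsAs {K M Ω : Type} [Field K] [Field M] [Field Ω] (i : K →+* Ω) (j : M →+* Ω) (σ : K → K)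
    (τ : M → M) : Prop :=
  ∀ c z, j z = i c → j (τ z) = i (σ c)

/-- Let `k ⊆ K ⊆ Ω` and `F ⊆ N ⊆ Ω` be fields.  A splitting of `Gal(N/F) → Gal(K/k)`: a continuous
homomorphism `s` from `Gal(K/k)` to `Gal(N/F)` such that `s(σ)` acts as `σ` on the elements of
`K ∩ N`. -/
structure Splitting (K N : Type) [Field K] [Field N] [Algebra k K] [Algebra F N] [Algebra K Ω]
    [Algebra N Ω] where
  /-- the homomorphism `Gal(K/k) → Gal(N/F)` -/
  toHom : (K ≃ₐ[k] K) →* (N ≃ₐ[F] N)
  cont : Continuous toHom
  compat : ∀ σ : K ≃ₐ[k] K, ActsAs (algebraMap K Ω) (algebraMap N Ω) σ (toHom σ)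

end definitions

section curves

variable {k : Type} [Field k]

/-- `(x, y)` is a point with coordinates in the field `F` of the curve `a y^n = f(x)` over `k`. -/
def IsPoint (n : ℕ) (a : k) (f : k[X]) {F : Type} [Field F] [Algebra k F] (x y : F) : Prop :=
  algebraMap k F a * y ^ n = aeval x f

/-- Let `F` be any field over `k` that contains a point `(x, y)` of the curve, for instance the
function field of the curve or of a curve that dominates it.  Then no valuation ring `O` of `F` with
`k ⊆ O` has the residue field `k`. -/
def NoRationalPlace (n : ℕ) (a : k) (f : k[X]) : Prop :=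
  ∀ (F : Type) [Field F] [Algebra k F] (x y : F), IsPoint n a f x y →
    ∀ O : ValuationSubring F, (∀ c : k, algebraMap k F c ∈ O) →
      ¬ ∀ u ∈ O, ∃ c : k, u - algebraMap k F c ∈ O.nonunits

/-- Let `F` be any field over `k` that contains a point `(x, y)` of the curve, for instance the
function field of the curve or of a curve that dominates it, and let `Ω` be an algebraic closure of
`F`.  Then for every set `U` of valuation rings of `F` over `k` there is no section of
`π₁(U) → G_k`. -/
def NoSection (n : ℕ) (a : k) (f : k[X]) : Prop :=
  ∀ (F Ω : Type) [Field F] [Field Ω] [Algebra k F] [Algebra F Ω] [Algebra k Ω]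
    [IsScalarTower k F Ω] [IsAlgClosure F Ω] (x y : F)
    (U : Set (ValuationSubring F)), IsPoint n a f x y →
    (∀ O ∈ U, ∀ c : k, algebraMap k F c ∈ O) →
      IsEmpty (Splitting k F Ω (algebraicClosure k Ω) (unramified F Ω U))

/-- The monoid generated by the degrees `[L : k]` of the finite extensions `L` of `k` over which the
curve `a y^n = f(x)` has a point. -/
def pointDegrees (n : ℕ) (a : k) (f : k[X]) : AddSubmonoid ℕ :=
  AddSubmonoid.closure {d | ∃ (L : Type) (_ : Field L) (_ : Algebra k L), Module.Finite k L ∧
    Module.finrank k L = d ∧ ∃ x y : L, IsPoint n a f x y}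

/-- The degrees of the points of the curve `a y^n = f(x)` over the finite extensions of `k` generate
`S`, and over every finite extension `L/k` with `[L : k] ∉ S` the curve has neither rational places nor
sections. -/
def HasDegreeMonoid (n : ℕ) (a : k) (f : k[X]) (S : AddSubmonoid ℕ) : Prop :=
  pointDegrees n a f = S ∧
  ∀ (L : Type) [Field L] [Algebra k L], Module.Finite k L → Module.finrank k L ∉ S →
    NoRationalPlace n (algebraMap k L a) (f.map (algebraMap k L)) ∧
    NoSection n (algebraMap k L a) (f.map (algebraMap k L))

/-- `f` is monic and separable, and its degree is divisible by `n` and at least 6. -/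
def Admissible (n : ℕ) (f : k[X]) : Prop :=
  f.Monic ∧ f.Separable ∧ n ∣ f.natDegree ∧ 6 ≤ f.natDegree

end curves

/-- Density zero: for every `ε > 0` there is a nonzero ideal `I` of `𝓞 K` such that `E` lies in at
most `ε #(𝓞 K/I)` residue classes modulo `I`. -/
def DensityZero {K : Type} [Field K] [NumberField K] (E : Set (𝓞 K)) : Prop :=
  ∀ ε : ℝ, 0 < ε → ∃ I : Ideal (𝓞 K), I ≠ ⊥ ∧
    (Set.ncard ((Ideal.Quotient.mk I) '' E) : ℝ) ≤ ε * Nat.card (𝓞 K ⧸ I)

open Pool.Agent.J4H44.FP Pool.Agent.J4H44.DG in
lemma of_fine {k : Type} [Field k] {n : ℕ} (a : k) (ha : a ≠ 0) (f : k[X]) (hdf : n ∣ f.natDegree)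
    (h : FineN n a f) : NoRationalPlace n a f ∧ NoSection n a f := by
  obtain ⟨ℓ, hℓ, ⟨n', rfl⟩, h1, h2, h3, -⟩ := h
  have hpt : ∀ {F : Type} [Field F] [Algebra k F] (x y : F), IsPoint (ℓ * n') a f x y →
      algebraMap k F a * (y ^ n') ^ ℓ = aeval x f := by
    intro F _ _ x y hxy
    rw [← pow_mul, mul_comm n' ℓ]
    exact hxy
  refine ⟨?_, ?_⟩
  · intro F _ _ x y hxy O hO hres
    exact no_place hℓ.pos a ha (fun _ : Fin 0 => (0 : k)) (fun i => i.elim0) f (fun _ => 0)
      (dvd_of_mul_right_dvd hdf) h2 h3 F x (y ^ n') (fun i => i.elim0) (hpt x y hxy)
      (fun i => i.elim0) O hO hres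
  · intro F Ω _ _ _ _ _ _ _ x y U hxy hU
    have hcl : IsAlgClosed Ω := IsAlgClosure.isAlgClosed F
    have halg : Algebra.IsAlgebraic F Ω := IsAlgClosure.isAlgebraic
    have h5 := h1 F Ω U hU x (y ^ n') (fun i => i.elim0) (hpt x y hxy) (fun i => i.elim0)
    exact ⟨fun s => h5.false ⟨s.toHom, s.cont, s.compat⟩⟩

open Pool.Agent.J4H44.FP Pool.Agent.J4H44.DG in
lemma of_fineN {k : Type} [Field k] {n : ℕ} (a : k) (ha : a ≠ 0) (f : k[X])
    (hdf : n ∣ f.natDegree) (S : AddSubmonoid ℕ) (hS : S ≤ PD n a f)
    (h : ∀ (L : Type) [Field L] [Algebra k L] [Module.Finite k L], Module.finrank k L ∉ S →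
      FineN n (algebraMap k L a) (f.map (algebraMap k L))) : HasDegreeMonoid n a f S := by
  refine ⟨le_antisymm ?_ ?_, ?_⟩
  · exact pd_le a f S h
  · exact hS
  · intro L _ _ hfin hL
    refine of_fine _ ((_root_.map_ne_zero _).2 ha) _ ?_ (h L hL)
    rw [natDegree_map]
    exact hdf

/-- Let `S` be a submonoid of `ℕ`.

(1) Let `n > 1` be a squarefree element of `S`, and let `k` be the fraction field of a discrete
valuation ring `A` of characteristic 0 with finite residue field in which `n` is a unit.  Then there is a
monic separable polynomial `f` over `k`, `n ∣ deg f ≥ 6`, such that for all `a = t ϖ^m`, `t` a unit and `ϖ`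
a prime element of `A`, `m` prime to `n`, the degrees of the points of the curve `a y^n = f(x)` generate
`S`, and over all finite extensions of `k` of degree not in `S` the curve has neither rational places nor
sections.

(2) For all number fields `K` and the same `n` there is such a polynomial `f` over `𝓞 K` for which this
is true for all `a ∈ 𝓞 K` outside a set of density zero.

(3) If the greatest common divisor of the elements of `S` is squarefree and not divisible by the prime
number `p`, then `S` contains a squarefree `n > 1` not divisible by `p`. -/
theorem result (S : AddSubmonoid ℕ) :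
    (∀ n ∈ S, 1 < n → Squarefree n →
      (∀ (A k : Type) [CommRing A] [IsDomain A] [IsDiscreteValuationRing A]
        [Finite (IsLocalRing.ResidueField A)] [Field k] [CharZero k] [Algebra A k]
        [IsFractionRing A k], IsUnit (n : A) →
        ∃ f : k[X], Admissible n f ∧
          ∀ (ϖ t : A) (m : ℤ), Irreducible ϖ → IsUnit t → IsCoprime m (n : ℤ) →
            HasDegreeMonoid n (algebraMap A k t * algebraMap A k ϖ ^ m) f S) ∧
      ∀ (K : Type) [Field K] [NumberField K],
        ∃ f : (𝓞 K)[X], Admissible n (f.map (algebraMap (𝓞 K) K)) ∧
          DensityZero {a : 𝓞 K | ¬ HasDegreeMonoid n (algebraMap (𝓞 K) K a)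
            (f.map (algebraMap (𝓞 K) K)) S}) ∧
    ((∀ q : ℕ, q.Prime → ¬ ∀ s ∈ S, q ^ 2 ∣ s) → ∀ p : ℕ, p.Prime → (¬ ∀ s ∈ S, p ∣ s) →
      ∃ n ∈ S, 1 < n ∧ Squarefree n ∧ ¬ p ∣ n) := by
  refine ⟨?_, ?_⟩
  · intro n hnS hn1 hsq
    have hn0 : n ≠ 0 := by omega
    refine ⟨?_, ?_⟩
    · intro A k _ _ _ _ _ _ _ _ hu
      obtain ⟨f, hm, hsep, hd, h6, hle, h⟩ := Pool.Agent.J4H44.DG.locN A k hn0 hsq hu S hnS
      refine ⟨f.map (algebraMap A k), ⟨hm.map _, hsep, ?_, ?_⟩, ?_⟩
      · rw [hm.natDegree_map]
        exact hd
      · rw [hm.natDegree_map]
        exact h6
      · intro ϖ t m hϖ ht hcop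
        have hAk : Function.Injective (algebraMap A k) := IsFractionRing.injective A k
        have ha : algebraMap A k t * algebraMap A k ϖ ^ m ≠ 0 := by
          refine mul_ne_zero ?_ (zpow_ne_zero _ ?_)
          · rw [Ne, map_eq_zero_iff _ hAk]
            exact ht.ne_zero
          · rw [Ne, map_eq_zero_iff _ hAk]
            exact hϖ.ne_zero
        refine of_fineN _ ha _ ?_ S (hle _ ha) fun L _ _ _ hL => h ϖ t m hϖ ht hcop L hL
        rw [hm.natDegree_map]
        exact hd
    · intro K _ _
      obtain ⟨f, hm, hsep, hd, h6, hle, σ, hσ⟩ := Pool.Agent.J4H44.DG.exists_fσ K hn0 S hnS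
      have hd' : n ∣ (f.map (algebraMap (𝓞 K) K)).natDegree := by
        rw [hm.natDegree_map]
        exact hd
      refine ⟨f, ⟨hm.map _, hsep, hd', ?_⟩, ?_⟩
      · rw [hm.natDegree_map]
        exact h6
      · refine Pool.Agent.J4H44.FP.DZ.mono (Pool.Agent.J4H44.DG.mainN hn0 hsq _ hsep hd' (by
          rw [hm.natDegree_map]
          omega) (1 : 𝓞 K) one_ne_zero) ?_
        intro a ha
        by_contra hcon
        apply ha
        have h1 : ∃ v : HeightOneSpectrum (𝓞 K), (1 : 𝓞 K) ∉ v.asIdeal ∧ a ∈ v.asIdeal ∧
            a ∉ v.asIdeal ^ 2 ∧ Pool.Agent.J4H44.DG.LocN n v.asIdeal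
              (Pool.Agent.J4H44.DG.SN n (f.map (algebraMap (𝓞 K) K)) σ)
              (algebraMap (𝓞 K) K a) (f.map (algebraMap (𝓞 K) K)) := by
          by_contra h2
          exact hcon ⟨σ, h2⟩
        obtain ⟨v, -, hav, hav2, hloc⟩ := h1
        rw [hσ] at hloc
        have ha0 : algebraMap (𝓞 K) K a ≠ 0 := by
          have h2 : a ≠ 0 := by
            rintro rfl
            exact hav2 (zero_mem _)
          rwa [Ne, map_eq_zero_iff _ (IsFractionRing.injective (𝓞 K) K)]
        refine of_fineN _ ha0 _ hd' S (hle _ ha0) fun L _ _ _ hL => ?_
        haveI : NumberField L := NumberField.of_module_finite K L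
        exact hloc.num L hL
  · intro hS p hp hpS
    obtain ⟨n, h1, h2, h3, h4⟩ := Pool.Agent.J4H44.DG.exists_n S hS p hp hpS
    exact ⟨n, h1, h2, h3, h4⟩

end Pool.Agent.Results.MP_896029_ag.DegreeMonoids
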