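import Pool.Agent.J4H44.FP.Plc

/-!
# Sections over all extensions whose degree is not in a numerical semigroup

Let `K` be a number field, `ℓ` a prime number, `f, g_1, …, g_r ∈ K[x]` (`r ≥ 0`) polynomials whose
degrees are divisible by `ℓ` and whose product is separable of degree at least 3, and
`b_1, …, b_r ∈ K^×`.  For `a ∈ K^×` let `X_a` be the smooth projective curve

  `a y^n = f(x)`, `b_i z_i^{m_i} = g_i(x)` (`1 ≤ i ≤ r`), where `n` and all `m_i` are divisible by `ℓ`;

for `r = 0` it is the superelliptic curve `a y^n = f(x)`.  Let `Z` be the finite set of all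
`(e, c_1, …, c_r)` in `K̄` with `f(e) = 0` and `b_i c_i^ℓ = g_i(e)`.  For `σ ∈ G_K = Gal(K̄/K)` let
`S_σ ⊆ ℕ` be the semigroup generated by `ℓ` and by the lengths of the cycles of `σ` on `Z`.

**Theorem.**  For all `a ∈ 𝓞_K` outside a set of density zero, for every `σ ∈ G_K` and ALL number
fields `L ⊇ K` whose degree `[L : K]` is not in `S_σ`: the curve `X_a` over `L` has no `L`-rational
point and its fundamental group has no section over `G_L`, also when any set of closed points is
removed, and the same is true for all smooth curves over `L` which dominate it.  So all these curves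
satisfy the (valuative) section conjecture, for infinitely many fields `L` at once: there is no
section, and there is no valuation with residue field `L`.

More precisely there is a prime `v` of `K` which divides `a` exactly once (and does not divide a given
`c ≠ 0`) such that this is true for all fields `k'` in place of `L` which are the fraction field of a
discrete valuation ring with finite residue field that lies over `v` with ramification index `e` and
residue degree `f`, `e f ∉ S_σ`.  Examples are the finite extensions of the completion `K_v` whose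
degree `e f` is not in `S_σ` (the `p`-adic case of the conjecture), and all number fields `L ⊇ K` with a
place `w` above `v` whose local degree `[L_w : K_v]` is not in `S_σ`; if `[L : K] ∉ S_σ` there is such
a place, as the sum of the local degrees is `[L : K]`.

Moreover, if all exponents `n`, `m_i` are `ℓ`, already the geometrically pro-`ℓ` fundamental group of
`X_a` has no section over these fields.

**The degrees which do occur.**  Let `r = 0` and `n = ℓ`.  The fibres over the rational points of the
line are effective zero-cycles of degree `ℓ` on `X_a`, and the roots of `f` give closed points whose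
degrees `d_1, …, d_s` are those of the irreducible factors of `f`.  So `X_a` has effective zero-cycles of
all degrees in the semigroup `S` generated by `ℓ, d_1, …, d_s`, which is contained in all `S_σ`.  If some
`σ` has just one cycle on the roots of every irreducible factor, then `S_σ = S`.  By the theorem the
degrees of the effective zero-cycles on `X_a` are then for almost all `a` exactly the elements of `S`, and
there are no sections over all `L` whose degree is not one of them.  For instance let `ℓ = 2` and let `f`
be the product of two irreducible polynomials of degrees 5 and 7 such that some `σ` permutes the roots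
of both of them cyclically.  Then `S = {0, 2, 4, 5, 6, 7, …}`, and the curves `a y² = f(x)` of genus 5
have for almost all `a` neither sections over `K` nor over any cubic extension of `K`.  Their index is
one, also over `K_v`, so that this is not an abelian phenomenon: it does not follow from Stix's theorem
that the index of a curve over a `p`-adic field whose fundamental group has a section is a power of `p`.
(If all elements of `S_σ` are divisible by `ℓ`, then the index of `X_a` over `K_v` is divisible by `ℓ`,
and the statement on the full fundamental groups over the extensions of `K_v`, `v ∤ ℓ`, follows from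
Stix's theorem.)

The theorem also contains the following statements on the semigroups.

* If `D < ℓ` and all cycles of `σ` on `Z` are longer than `D`, then all `L ⊇ K` with `[L : K] ≤ D` are
  allowed; for `D = 1` this says that `L = K` is allowed if `σ` fixes no element of `Z`.
* If `f` is irreducible and its degree is a power of `ℓ`, then there is a `σ` with `S_σ = ℓℕ`, for all
  `g_i` and `b_i`: all extensions `L` of degree prime to `ℓ` are allowed.
* If for some `i` the class of `b_i` in `K^×/K^{×ℓ}` is not in a certain finite set, then there is a `σ`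
  with `S_σ = ℓℕ`, for ALL `f` and `g_i` (for instance with all roots in `K`), and again all extensions
  `L` of degree prime to `ℓ` are allowed.

**Earlier results.**  For `r = 0` and `L = K` the theorem is contained in the starting files
`MP_2f3286_ag.SuperellipticTwists` and `MP_e66f84_ag.SuperellipticTwists`.  The local input is the
theorem on sections of superelliptic curves over discrete valuation rings from there; over complete
fields its extension to étale coverings such as `X_a → C` (see below) is
`MP_c385f6_ag.EtaleCoverings`.  New are the semigroups, the fields `L ≠ K` (one prime `v` serves all of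
them), and over number fields the curves with `r ≥ 1`.

**Conventions.**  Let `U` be a smooth geometrically connected curve over `k` with function field `F`,
let `Ω` be an algebraic closure of `F`, and let `F_U` be the maximal extension of `F` inside `Ω` which is
unramified over the closed points of `U`, that is, over their local rings, which are valuation rings of
`F`.  Then `π₁(U) = Gal(F_U/F)`, and the map `π₁(U) → G_k` is the restriction of automorphisms to the
algebraic closure of `k` in `Ω`.  The valuation rings of `F` over `k` other than `F` itself are the local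
rings of the closed points of the smooth projective curve with function field `F`, and their residue
fields are the residue fields of the points.  (Constant `f` or `g_i` are allowed; then `X_a` may be
empty or not geometrically connected.  The theorem is stated for all fields `F` over `k` which contain a
solution of the equations.)

**Proof.**  By Chebotarev's theorem there are many primes `v` of `K` of degree one with Frobenius `σ`,
and almost all `a` are divisible exactly once by one of them.  Choose a polynomial `H` over `K` with the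
roots `e + ∑ t_i c_i`, which are different for different elements of `Z`.  Its reduction has no zero in
the extension of degree `d` of the residue field of `v` if `σ^d` fixes no element of `Z`.  Let `k'` be
as above.  As `e f ∉ S_σ`, `ℓ` does not divide `e`, and `H` has no zero in the residue field of `k'`.
A section for `X_a` over `k'` gives a section for the curve `C : a b_1 ⋯ b_r w^ℓ = f(x) g_1(x) ⋯ g_r(x)`,
and by the local theorem for superelliptic curves (library `Pool.Agent.Y157.PS`) there is a valuation of
the maximal unramified pro-`ℓ` extension `M` of `k̄' k'(C)` which is invariant under the image of the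
decomposition group of `k'`, above a point `x = e` with `f(e) = 0` or `g_i(e) = 0`.  The functions
`y, z_i` are in `M` (`X_a` is an étale covering of `C`), and they are fixed by the section.  If
`f(e) = 0`, the values `c_i` of `z_i` at this place are fixed by the decomposition group, and
`e + ∑ t_i c_i` reduces to a zero of `H` in the residue field of `k'`, a contradiction.  If `g_i(e) = 0`,
then the value `c` of `y` at this place, `a c^ℓ = f(e)`, is fixed by the inertia group, so its valuation
is an integer; but `f(e)` is a unit and the valuation of `a` is not divisible by `ℓ`.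
-/

set_option autoImplicit false

open Polynomial NumberField IsDedekindDomain

namespace Pool.Agent.Results.MP_896029_ag.DegreesOfSections

section definitions

variable (ℓ : ℕ) (k F Ω : Type) [Field k] [Field F] [Field Ω] [Algebra k F] [Algebra F Ω]
  [Algebra k Ω]

/-- The inertia group of the valuation ring `W` of `Ω`, as a subgroup of `Gal(Ω/F)`: the
automorphisms of `Ω` over `F` that map `W` onto itself and act as the identity on its residue
field. -/
noncomputable def inertia (W : ValuationSubring Ω) : Subgroup (Ω ≃ₐ[F] Ω) :=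
  (W.inertiaSubgroup F).map (W.decompositionSubgroup F).subtype

/-- `F_U`, for a set `U` of valuation rings of `F`: the elements of `Ω` fixed by the inertia groups
of all valuation rings `W` of `Ω` with `W ∩ F ∈ U`.  If `Ω` is an algebraic closure of a field `F`
of characteristic zero, this is the maximal extension of `F` in `Ω` unramified over `U`. -/
noncomputable def unramified (U : Set (ValuationSubring F)) : IntermediateField F Ω :=
  ⨅ W : {W : ValuationSubring Ω // W.comap (algebraMap F Ω) ∈ U},
    IntermediateField.fixedField (inertia F Ω W.1)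

/-- `k̄ F`, the compositum of `F` and of the algebraic closure of `k` in `Ω`. -/
noncomputable def geomField : IntermediateField F Ω :=
  IntermediateField.adjoin F (algebraicClosure k Ω : Set Ω)

/-- The algebraic extension `L` of `K` in `Ω` is unramified at all valuation rings of `Ω` that
contain `k`: every nonzero element of `L` has the same valuation as an element of `K`.  (If `K` is
a function field of one variable over the algebraic closure of `k` and `k` has characteristic zero,
then this says that `L/K` is unramified over all points of the smooth projective curve.) -/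
def Unramified {k K Ω : Type} [Field k] [Field K] [Field Ω] [Algebra k Ω] [Algebra K Ω]
    (L : IntermediateField K Ω) : Prop :=
  ∀ W : ValuationSubring Ω, (∀ c : k, algebraMap k Ω c ∈ W) → ∀ z ∈ L, z ≠ 0 →
    ∃ t : K, t ≠ 0 ∧ z / algebraMap K Ω t ∈ W ∧ (z / algebraMap K Ω t)⁻¹ ∈ W

/-- `L/K` is a finite Galois extension whose degree is a power of `ℓ`. -/
def FiniteProEll (ℓ : ℕ) {K Ω : Type} [Field K] [Field Ω] [Algebra K Ω]
    (L : IntermediateField K Ω) : Prop :=
  FiniteDimensional K L ∧ IsGalois K L ∧ ∃ m : ℕ, Module.finrank K L = ℓ ^ m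

/-- The maximal unramified pro-`ℓ` extension of `K` in `Ω`: the compositum of the finite Galois
extensions of `K` whose degree is a power of `ℓ` and which are unramified. -/
noncomputable def maxProEll (ℓ : ℕ) (k K Ω : Type) [Field k] [Field K] [Field Ω] [Algebra k Ω]
    [Algebra K Ω] : IntermediateField K Ω :=
  ⨆ L : {L : IntermediateField K Ω // FiniteProEll ℓ L ∧ Unramified (k := k) L}, L.1

/-- `M`, the maximal unramified pro-`ℓ` extension of `k̄ F` in `Ω`, as an extension of `F`. -/
noncomputable def proEllField : IntermediateField F Ω :=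
  (maxProEll ℓ k (geomField k F Ω) Ω).restrictScalars F

/-- The map `τ : M → M` acts as `σ : K → K` on the elements that the fields `K` and `M` have in
common when they are regarded as subfields of `Ω` through `i` and `j`. -/
def ActsAs {K M Ω : Type} [Field K] [Field M] [Field Ω] (i : K →+* Ω) (j : M →+* Ω) (σ : K → K)
    (τ : M → M) : Prop :=
  ∀ c z, j z = i c → j (τ z) = i (σ c)

/-- Let `k ⊆ K ⊆ Ω` and `F ⊆ N ⊆ Ω` be fields.  A splitting of `Gal(N/F) → Gal(K/k)`: a continuous
homomorphism `s` from `Gal(K/k)` to `Gal(N/F)` such that `s(σ)` acts as `σ` on the elements of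
`K ∩ N`. -/
structure Splitting (K N : Type) [Field K] [Field N] [Algebra k K] [Algebra F N] [Algebra K Ω]
    [Algebra N Ω] where
  /-- the homomorphism `Gal(K/k) → Gal(N/F)` -/
  toHom : (K ≃ₐ[k] K) →* (N ≃ₐ[F] N)
  cont : Continuous toHom
  compat : ∀ σ : K ≃ₐ[k] K, ActsAs (algebraMap K Ω) (algebraMap N Ω) σ (toHom σ)

end definitions

section curves

variable {k : Type} [Field k] {r : ℕ}

/-- `(x, y, z)` is a point with coordinates in the field `F` of the curve
`a y^n = f(x)`, `b_i z_i^{m_i} = g_i(x)` over `k`. -/
def IsPoint (n : ℕ) (m : Fin r → ℕ) (a : k) (b : Fin r → k) (f : k[X]) (g : Fin r → k[X])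
    {F : Type} [Field F] [Algebra k F] (x y : F) (z : Fin r → F) : Prop :=
  algebraMap k F a * y ^ n = aeval x f ∧ ∀ i, algebraMap k F (b i) * z i ^ m i = aeval x (g i)

/-- Let `F` be any field over `k` that contains a point `(x, y, z)` of the curve, for instance the
function field of the curve (or `k` itself, if the curve has an affine point over `k`).  Then no
valuation ring `O` of `F` with `k ⊆ O` has the residue field `k`. -/
def NoRationalPlace (n : ℕ) (m : Fin r → ℕ) (a : k) (b : Fin r → k) (f : k[X])
    (g : Fin r → k[X]) : Prop :=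
  ∀ (F : Type) [Field F] [Algebra k F] (x y : F) (z : Fin r → F), IsPoint n m a b f g x y z →
    ∀ O : ValuationSubring F, (∀ c : k, algebraMap k F c ∈ O) →
      ¬ ∀ u ∈ O, ∃ c : k, u - algebraMap k F c ∈ O.nonunits

/-- Let `F` be any field over `k` that contains a point `(x, y, z)` of the curve, for instance the
function field of the curve or of a curve that dominates it, and let `Ω` be an algebraic closure of
`F`.  Then for every set `U` of valuation rings of `F` over `k` there is no section of
`π₁(U) → G_k`. -/
def NoSection (n : ℕ) (m : Fin r → ℕ) (a : k) (b : Fin r → k) (f : k[X])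
    (g : Fin r → k[X]) : Prop :=
  ∀ (F Ω : Type) [Field F] [Field Ω] [Algebra k F] [Algebra F Ω] [Algebra k Ω]
    [IsScalarTower k F Ω] [IsAlgClosure F Ω] (x y : F) (z : Fin r → F)
    (U : Set (ValuationSubring F)), IsPoint n m a b f g x y z →
    (∀ O ∈ U, ∀ c : k, algebraMap k F c ∈ O) →
      IsEmpty (Splitting k F Ω (algebraicClosure k Ω) (unramified F Ω U))

/-- The values of the section `s` fix `y` and the `z_i`. -/
def Fixes {F Ω : Type} [Field F] [Field Ω] [Algebra k F] [Algebra F Ω] [Algebra k Ω]
    {N : IntermediateField F Ω} (s : Splitting k F Ω (algebraicClosure k Ω) N) (y : Ω)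
    (z : Fin r → Ω) : Prop :=
  ∀ (σ : algebraicClosure k Ω ≃ₐ[k] algebraicClosure k Ω) (u : N),
    ((u : Ω) = y ∨ ∃ i, (u : Ω) = z i) → s.toHom σ u = u

/-- Let `F = k(x, w)` be the function field of the curve `C : a b_1 ⋯ b_r w^ℓ = f(x) g_1(x) ⋯ g_r(x)`,
let `Ω` be an algebraic closure of `F`, and let `M` be the maximal unramified pro-`ℓ` extension of
`k̄ F`.  The curve `X : a y^ℓ = f(x)`, `b_i z_i^ℓ = g_i(x)` is an étale covering of `C`, its function
field `F(y, z)` is contained in `M`, and `Gal(M/F(y, z))` is the geometrically pro-`ℓ` fundamental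
group of `X`.  The property says: for all extensions `N ⊇ M` of `F` in `Ω` there is no section of
`Gal(N/F) → G_k` whose values fix `y` and the `z_i`, that is, no section of
`Gal(N/F(y, z)) → G_k`. -/
def NoProEllSection (ℓ : ℕ) (a : k) (b : Fin r → k) (f : k[X]) (g : Fin r → k[X]) : Prop :=
  ∀ (F Ω : Type) [Field F] [Field Ω] [Algebra k F] [Algebra F Ω] [Algebra k Ω]
    [IsScalarTower k F Ω] [IsAlgClosure F Ω] (x w : F), Transcendental k x →
    algebraMap k F (a * ∏ i, b i) * w ^ ℓ = aeval x (f * ∏ i, g i) →
    IntermediateField.adjoin k {x, w} = (⊤ : IntermediateField k F) →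
    ∀ N : IntermediateField F Ω, proEllField ℓ k F Ω ≤ N →
    ∀ (y : Ω) (z : Fin r → Ω), IsPoint ℓ (fun _ => ℓ) a b f g (algebraMap F Ω x) y z →
      ∀ s : Splitting k F Ω (algebraicClosure k Ω) N, ¬ Fixes s y z

/-- For all exponents `n`, `m_i` divisible by `ℓ` the curve `a y^n = f(x)`, `b_i z_i^{m_i} = g_i(x)`
over `k` has neither rational places nor sections, and if all exponents are `ℓ` its geometrically
pro-`ℓ` fundamental group has no section. -/
def Pointless (ℓ : ℕ) (a : k) (b : Fin r → k) (f : k[X]) (g : Fin r → k[X]) : Prop :=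
  (∀ (n : ℕ) (m : Fin r → ℕ), ℓ ∣ n → (∀ i, ℓ ∣ m i) →
    NoRationalPlace n m a b f g ∧ NoSection n m a b f g) ∧ NoProEllSection ℓ a b f g

end curves

section numbers

variable {K : Type} [Field K] {r : ℕ}

/-- The set `Z` of all tuples `(e, c_1, …, c_r)` in `K̄` with `f(e) = 0`, `b_i c_i^ℓ = g_i(e)`. -/
def tuples (ℓ : ℕ) (b : Fin r → K) (f : K[X]) (g : Fin r → K[X]) :
    Set (AlgebraicClosure K × (Fin r → AlgebraicClosure K)) :=
  {z | aeval z.1 f = 0 ∧
    ∀ i, algebraMap K (AlgebraicClosure K) (b i) * z.2 i ^ ℓ = aeval z.1 (g i)}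

/-- `τ` fixes the tuple `z`. -/
def FixesTuple (τ : AlgebraicClosure K ≃ₐ[K] AlgebraicClosure K)
    (z : AlgebraicClosure K × (Fin r → AlgebraicClosure K)) : Prop :=
  τ z.1 = z.1 ∧ ∀ i, τ (z.2 i) = z.2 i

/-- The semigroup `S_σ` generated by `ℓ` and by all `n` such that `σ^n` fixes some element of `Z`; in
other words, by `ℓ` and by the lengths of the cycles of `σ` on the set `Z`. -/
def degrees (ℓ : ℕ) (b : Fin r → K) (f : K[X]) (g : Fin r → K[X])
    (σ : AlgebraicClosure K ≃ₐ[K] AlgebraicClosure K) : AddSubmonoid ℕ :=
  AddSubmonoid.closure ({ℓ} ∪ {n | ∃ z ∈ tuples ℓ b f g, FixesTuple (σ ^ n) z})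

/-- For some `σ ∈ G_K` all elements of `S_σ` are divisible by `ℓ`. -/
def AllDivisible (ℓ : ℕ) (b : Fin r → K) (f : K[X]) (g : Fin r → K[X]) : Prop :=
  ∃ σ : AlgebraicClosure K ≃ₐ[K] AlgebraicClosure K, ∀ d ∈ degrees ℓ b f g σ, ℓ ∣ d

/-- All cycles of `σ` on `Z` are longer than `D`. -/
def LongCycles (ℓ : ℕ) (b : Fin r → K) (f : K[X]) (g : Fin r → K[X])
    (σ : AlgebraicClosure K ≃ₐ[K] AlgebraicClosure K) (D : ℕ) : Prop :=
  ∀ n : ℕ, 0 < n → n ≤ D → ∀ z ∈ tuples ℓ b f g, ¬ FixesTuple (σ ^ n) z

/-- The degrees of `f` and the `g_i` are divisible by `ℓ`, and the product of these polynomials is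
separable of degree at least 3. -/
def Admissible (ℓ : ℕ) (f : K[X]) (g : Fin r → K[X]) : Prop :=
  (f * ∏ i, g i).Separable ∧ ℓ ∣ f.natDegree ∧ (∀ i, ℓ ∣ (g i).natDegree) ∧
    3 ≤ (f * ∏ i, g i).natDegree

/-- The discrete valuation ring `A` with the fraction field `k`, an extension of the number field
`K`, lies over the prime `v` of `K`, with ramification index `e` and residue degree `f`. -/
def LiesOver [NumberField K] (v : Ideal (𝓞 K)) (A k : Type) [CommRing A] [IsDomain A]
    [IsDiscreteValuationRing A] [Field k] [Algebra A k] [Algebra K k] (e f : ℕ) : Prop :=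
  ∃ ρ : 𝓞 K →+* A, (∀ c, algebraMap A k (ρ c) = algebraMap K k (algebraMap (𝓞 K) K c)) ∧
    v.map ρ = IsLocalRing.maximalIdeal A ^ e ∧
    Nat.card (IsLocalRing.ResidueField A) = Nat.card (𝓞 K ⧸ v) ^ f

/-- The curves over the extension field `k` of `K` have neither rational places nor sections. -/
def PointlessOver (k : Type) [Field k] [Algebra K k] (ℓ : ℕ) (a : K) (b : Fin r → K) (f : K[X])
    (g : Fin r → K[X]) : Prop :=
  Pointless ℓ (algebraMap K k a) (fun i => algebraMap K k (b i)) (f.map (algebraMap K k))
    (fun i => (g i).map (algebraMap K k))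

/-- There are neither rational places nor sections over all fraction fields of discrete valuation
rings over `v` with finite residue field and with `e f ∉ S`, and over all number fields `L ⊇ K` with
`[L : K] ∉ S`. -/
def PointlessAt [NumberField K] (v : Ideal (𝓞 K)) (S : AddSubmonoid ℕ) (ℓ : ℕ) (a : K)
    (b : Fin r → K) (f : K[X]) (g : Fin r → K[X]) : Prop :=
  (∀ (A k : Type) [CommRing A] [IsDomain A] [IsDiscreteValuationRing A]
    [Finite (IsLocalRing.ResidueField A)] [Field k] [Algebra A k] [IsFractionRing A k]
    [Algebra K k] (e₁ f₁ : ℕ), LiesOver v A k e₁ f₁ → e₁ * f₁ ∉ S →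
      PointlessOver k ℓ a b f g) ∧
  ∀ (L : Type) [Field L] [NumberField L] [Algebra K L], Module.finrank K L ∉ S →
    PointlessOver L ℓ a b f g

/-- The elements `a` of `𝓞 K` for which the theorem fails for some `σ ∈ G_K`. -/
def Exceptional [NumberField K] (ℓ : ℕ) (b : Fin r → K) (f : K[X]) (g : Fin r → K[X])
    (c : 𝓞 K) : Set (𝓞 K) :=
  {a | ¬ ∀ σ : AlgebraicClosure K ≃ₐ[K] AlgebraicClosure K,
    ∃ v : HeightOneSpectrum (𝓞 K), c ∉ v.asIdeal ∧ a ∈ v.asIdeal ∧ a ∉ v.asIdeal ^ 2 ∧
      PointlessAt v.asIdeal (degrees ℓ b f g σ) ℓ (algebraMap (𝓞 K) K a) b f g}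

/-- Density zero: for every `ε > 0` there is a nonzero ideal `I` of `𝓞 K` such that `E` lies in at
most `ε #(𝓞 K/I)` residue classes modulo `I`. -/
def DensityZero [NumberField K] (E : Set (𝓞 K)) : Prop :=
  ∀ ε : ℝ, 0 < ε → ∃ I : Ideal (𝓞 K), I ≠ ⊥ ∧
    (Set.ncard ((Ideal.Quotient.mk I) '' E) : ℝ) ≤ ε * Nat.card (𝓞 K ⧸ I)

end numbers

lemma iSup_congr_prop {α : Type} [CompleteLattice α] {P Q : α → Prop} (h : ∀ L, P L ↔ Q L) :
    (⨆ L : {L // P L}, L.1) = ⨆ L : {L // Q L}, L.1 := by
  have h1 : P = Q := funext fun L => propext (h L)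
  subst h1
  rfl

lemma proEll_eq (ℓ : ℕ) (k F Ω : Type) [Field k] [Field F] [Field Ω] [Algebra k F] [Algebra F Ω]
    [Algebra k Ω] : proEllField ℓ k F Ω = Pool.Agent.Y157.PS.geomPro ℓ k F Ω := by
  unfold proEllField Pool.Agent.Y157.PS.geomPro maxProEll Pool.Agent.Y157.PS.maxPro
  congr 1
  refine iSup_congr_prop fun L => ?_
  constructor
  · rintro ⟨⟨h1, h2, h3⟩, h4⟩
    refine ⟨⟨h1, h2, h3⟩, fun W hW z hz hz0 => ?_⟩
    obtain ⟨t, ht, h5, h6⟩ := h4 W hW z hz hz0
    exact ⟨t, ht, div_ne_zero hz0 ((_root_.map_ne_zero _).2 ht), h5, h6⟩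
  · rintro ⟨⟨h1, h2, h3⟩, h4⟩
    refine ⟨⟨h1, h2, h3⟩, fun W hW z hz hz0 => ?_⟩
    obtain ⟨t, ht, -, h5, h6⟩ := h4 W hW z hz hz0
    exact ⟨t, ht, h5, h6⟩

open Pool.Agent.J4H44.FP in
lemma of_fine {k : Type} [Field k] {ℓ r : ℕ} (hℓ : 0 < ℓ) (a : k) (ha : a ≠ 0) (b : Fin r → k)
    (hb : ∀ i, b i ≠ 0) (f : k[X]) (g : Fin r → k[X]) (hdf : ℓ ∣ f.natDegree)
    (h : FineX ℓ a b f g) : Pointless ℓ a b f g := by
  obtain ⟨h1, h2, h3, h4⟩ := h
  refine ⟨?_, ?_⟩
  · intro n m hn hm
    obtain ⟨n', rfl⟩ := hn
    choose m' hm' using hm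
    have hpt : ∀ {F : Type} [Field F] [Algebra k F] (x y : F) (z : Fin r → F),
        IsPoint (ℓ * n') m a b f g x y z →
        algebraMap k F a * (y ^ n') ^ ℓ = aeval x f ∧
          ∀ i, algebraMap k F (b i) * (z i ^ m' i) ^ ℓ = aeval x (g i) := by
      intro F _ _ x y z hxyz
      refine ⟨?_, fun i => ?_⟩
      · rw [← pow_mul, mul_comm n' ℓ]
        exact hxyz.1
      · rw [← pow_mul, mul_comm (m' i) ℓ, ← hm' i]
        exact hxyz.2 i
    refine ⟨?_, ?_⟩
    · intro F _ _ x y z hxyz O hO hres
      obtain ⟨hy, hz⟩ := hpt x y z hxyz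
      exact no_place hℓ a ha b hb f g hdf h2 h3 F x (y ^ n') (fun i => z i ^ m' i) hy hz O hO hres
    · intro F Ω _ _ _ _ _ _ _ x y z U hxyz hU
      have hcl : IsAlgClosed Ω := IsAlgClosure.isAlgClosed F
      have halg : Algebra.IsAlgebraic F Ω := IsAlgClosure.isAlgebraic
      obtain ⟨hy, hz⟩ := hpt x y z hxyz
      have h5 := h1 F Ω U hU x (y ^ n') (fun i => z i ^ m' i) hy hz
      exact ⟨fun s => h5.false ⟨s.toHom, s.cont, s.compat⟩⟩
  · intro F Ω _ _ _ _ _ _ _ x w hx hxw hF N hN y z hyz s hs
    have hcl : IsAlgClosed Ω := IsAlgClosure.isAlgClosed F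
    have halg : Algebra.IsAlgebraic F Ω := IsAlgClosure.isAlgebraic
    rw [proEll_eq] at hN
    exact h4 F Ω x w hx hxw hF N hN s.toHom s.cont s.compat y z hyz.1 hyz.2
      (fun σ u hu => hs σ u (Or.inl hu)) (fun i σ u hu => hs σ u (Or.inr ⟨i, hu⟩))

lemma degrees_eq {K : Type} [Field K] {ℓ r : ℕ} (b : Fin r → K) (f : K[X]) (g : Fin r → K[X])
    (σ : AlgebraicClosure K ≃ₐ[K] AlgebraicClosure K) :
    degrees ℓ b f g σ = Pool.Agent.J4H44.FP.SG ℓ f g b σ := rfl

/-- Let `K` be a number field, `ℓ` a prime number and `f, g_1, …, g_r` polynomials over `K` of degrees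
divisible by `ℓ` whose product is separable of degree at least 3.

(1) For all nonzero `b_i ∈ K` and `c ∈ 𝓞 K`, for all `a ∈ 𝓞 K` outside a set of density zero and every
`σ ∈ G_K` there is a prime `v` of `K` not dividing `c` which divides `a` exactly once, such that the
curves `a y^n = f(x)`, `b_i z_i^{m_i} = g_i(x)` (`n` and all `m_i` divisible by `ℓ`) have neither rational
places nor sections over the number fields `L ⊇ K` with `[L : K] ∉ S_σ` and over the fraction fields of
the discrete valuation rings over `v` with finite residue field and `e f ∉ S_σ`.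

(2) If `D < ℓ` and all cycles of `σ` on `Z` are longer than `D`, then `1, …, D ∉ S_σ`.

(3) If `f` is irreducible and its degree is a power of `ℓ`, then for all `b_i` there is a `σ` such that
all elements of `S_σ` are divisible by `ℓ`.

(4) For every `i` there is a finite set `Γ ⊆ K` such that, if `b_i ≠ γ c^ℓ` for all `γ ∈ Γ` and
`c ∈ K`, there is a `σ` such that all elements of `S_σ` are divisible by `ℓ`. -/
theorem result (K : Type) [Field K] [NumberField K] (ℓ : ℕ) (hℓ : ℓ.Prime) (r : ℕ) (f : K[X])
    (g : Fin r → K[X]) (h : Admissible ℓ f g) :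
    (∀ b : Fin r → K, (∀ i, b i ≠ 0) → ∀ c : 𝓞 K, c ≠ 0 →
      DensityZero (Exceptional ℓ b f g c)) ∧
    (∀ (b : Fin r → K) (σ : AlgebraicClosure K ≃ₐ[K] AlgebraicClosure K) (D : ℕ), D < ℓ →
      LongCycles ℓ b f g σ D → ∀ d : ℕ, 0 < d → d ≤ D → d ∉ degrees ℓ b f g σ) ∧
    (Irreducible f → (∃ s : ℕ, f.natDegree = ℓ ^ s) → ∀ b : Fin r → K, AllDivisible ℓ b f g) ∧
    ∀ i : Fin r, ∃ Γ : Set K, Γ.Finite ∧ ∀ b : Fin r → K, (∀ i, b i ≠ 0) →
      (∀ γ ∈ Γ, ∀ c : K, b i ≠ γ * c ^ ℓ) → AllDivisible ℓ b f g := by
  obtain ⟨hs, hdf, hdg, h3⟩ := h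
  have hf0 : f ≠ 0 := fun h => hs.ne_zero (by rw [h, zero_mul])
  refine ⟨?_, ?_, ?_, ?_⟩
  · intro b hb c hc
    refine Pool.Agent.J4H44.FP.DZ.mono
      (Pool.Agent.J4H44.FP.mainA hℓ f g hs hdf hdg h3 b hb c hc) ?_
    intro a ha
    by_contra hcon
    apply ha
    intro σ
    have h1 : ∃ v : HeightOneSpectrum (𝓞 K), c ∉ v.asIdeal ∧ a ∈ v.asIdeal ∧ a ∉ v.asIdeal ^ 2 ∧
        Pool.Agent.J4H44.FP.LocF ℓ v.asIdeal (Pool.Agent.J4H44.FP.SG ℓ f g b σ)
          (algebraMap (𝓞 K) K a) b f g := by
      by_contra h2
      exact hcon ⟨σ, h2⟩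
    obtain ⟨v, hcv, hav, hav2, hloc⟩ := h1
    have ha0 : algebraMap (𝓞 K) K a ≠ 0 := by
      have h2 : a ≠ 0 := by
        rintro rfl
        exact hav2 (zero_mem _)
      rwa [Ne, map_eq_zero_iff _ (IsFractionRing.injective (𝓞 K) K)]
    have key : ∀ (k : Type) [Field k] [Algebra K k],
        Pool.Agent.J4H44.FP.FineX ℓ (algebraMap K k (algebraMap (𝓞 K) K a))
          (fun i => algebraMap K k (b i)) (f.map (algebraMap K k))
          (fun i => (g i).map (algebraMap K k)) →
        PointlessOver k ℓ (algebraMap (𝓞 K) K a) b f g := by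
      intro k _ _ h
      refine of_fine hℓ.pos _ ((_root_.map_ne_zero _).2 ha0) _
        (fun i => (_root_.map_ne_zero _).2 (hb i)) _ _ ?_ h
      rw [natDegree_map]
      exact hdf
    rw [← degrees_eq] at hloc
    refine ⟨v, hcv, hav, hav2, ?_, ?_⟩
    · intro A k _ _ _ _ _ _ _ _ e₁ f₁ hover hef
      exact key k (hloc A k e₁ f₁ hover hef)
    · intro L _ _ _ hL
      exact key L (hloc.num L hL)
  · intro b σ D hD h d hd hdD
    rw [degrees_eq]
    exact Pool.Agent.J4H44.FP.SG_small D hD
      (fun n hn hnD z hz h1 h2 => h n hn hnD z hz ⟨h1, h2⟩) d hd hdD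
  · rintro hf ⟨s, hs'⟩ b
    by_cases h2 : 2 ≤ f.natDegree
    · obtain ⟨σ, hσ⟩ := Pool.Agent.J4H44.FP.exists_irr hℓ f hf hs' h2
      refine ⟨σ, ?_⟩
      rw [degrees_eq]
      exact Pool.Agent.J4H44.FP.SG_dvd fun n z hz h1 _ => hσ n z.1 hz.1 h1
    · exfalso
      have h4 : f.natDegree ≠ 0 := hf.natDegree_pos.ne'
      have h5 := Nat.le_of_dvd (Nat.pos_of_ne_zero h4) hdf
      have h6 := hℓ.two_le
      omega
  · intro i
    have hsi : (f * g i).Separable := by
      refine hs.of_dvd (mul_dvd_mul_left f ?_)
      exact Finset.dvd_prod_of_mem g (Finset.mem_univ i)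
    obtain ⟨Γ, hΓ, h⟩ := Pool.Agent.J4H44.FP.exists_classes hℓ f (g i) hsi
    refine ⟨Γ, hΓ, fun b hb hbΓ => ?_⟩
    obtain ⟨σ, hσ⟩ := h (b i) (hb i) hbΓ
    refine ⟨σ, ?_⟩
    rw [degrees_eq]
    exact Pool.Agent.J4H44.FP.SG_dvd fun n z hz h1 h2 =>
      hσ n z.1 (z.2 i) hz.1 (hz.2 i) h1 (h2 i)

end Pool.Agent.Results.MP_896029_ag.DegreesOfSections
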