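import Pool.Agent.J4H44.WS.Loc
import Pool.Agent.J4H44.FP.Plc

/-!
# All superelliptic twists over large `p`-adic fields: a rational point, or no section

Let `n > 1` be squarefree and let `D ≥ 3` be divisible by `n`.

**Theorem.**  There is a number `N`, which depends only on `n` and `D`, such that the following is true for
every finite extension `k` of `ℚ_p`, `p ∤ n`, whose residue field has more than `N` elements (and for every
henselian discretely valued field of characteristic zero with a finite residue field like this).  Let `A` be
the valuation ring of `k` and let `f ∈ A[x]` be a monic polynomial of degree `D` with separable reduction.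
For ALL `a ∈ k^×` the curve

  `X_a : a y^n = f(x)`

of genus `(n - 1)(D - 2)/2` has a rational point, or its fundamental group has no section over `G_k`.  In
the second case also the open subcurves of `X_a` and all smooth curves over `k` which dominate `X_a` have no
sections (and no rational points).

So `π₁(X_a) → G_k` has a section if and only if `X_a` has a rational point: this is the existence part of the
`p`-adic section conjecture, for all twists of the curve `y^n = f(x)` by the automorphisms `y ↦ ζ y`.  As `N` does
not depend on `k`, the same is true over all finite extensions of `k`.  If `f` is a separable polynomial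
over a number field `K`, of degree divisible by `n`, then all of this holds for all but finitely many places
`v` of `K`, all finite extensions `L` of `K_v` and all `a ∈ L^×` (divide `f` by its leading coefficient, which
changes `a` only).

In the proof the twists fall into three classes.  If `f` has a root in `k`, this is a point of `X_a`.
If the valuation of `a` is divisible by `n`, then `X_a` has good reduction, and there is a point over the
residue field by Weil's bound, which lifts.  In the remaining case `f` has no root in the residue field, and
some prime divisor `ℓ` of `n` does not divide the valuation of `a` (`n` is squarefree).  Then the curve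
`a y^ℓ = f(x)`, which is dominated by `X_a`, has no section; this is the local theorem of the starting library
`Pool.Agent.Y157.PS`.

**Earlier results.**  For prime numbers `n = ℓ` and `a` of valuation prime to `ℓ` the starting hand-in
`MP_c385f6_ag.ProEllSections` describes all sections of the geometrically pro-`ℓ` fundamental group over complete
fields.  New are: all `a` at once (one dichotomy, with the same `N` for all of them), composite `n`, and
henselian rings.  For curves of index prime to `p` greater than one the absence of sections follows
from Stix's theorem on the index; here the curves without points which have a section neither over `k` nor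
over any curve above them can have index 1, for instance if the degrees of the irreducible factors of the
reduction of `f` have greatest common divisor prime to `n`.

**Conventions.**  Let `U` be a smooth geometrically connected curve over `k` with function field `F`,
let `Ω` be an algebraic closure of `F`, and let `F_U` be the maximal extension of `F` inside `Ω` which is
unramified over the closed points of `U`, that is, over their local rings, which are valuation rings of
`F`.  Then `π₁(U) = Gal(F_U/F)`, and the map `π₁(U) → G_k` is the restriction of automorphisms to the
algebraic closure of `k` in `Ω`.  The valuation rings of `F` over `k` other than `F` itself are the local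
rings of the closed points of the smooth projective curve with function field `F`, and their residue
fields are the residue fields of the points; so `NoRationalPlace` says that this curve has no rational
point.
-/

set_option autoImplicit false

open Polynomial

namespace Pool.Agent.Results.MP_896029_ag.PointsOrNoSections

section definitions

variable (k F Ω : Type) [Field k] [Field F] [Field Ω] [Algebra k F] [Algebra F Ω]
  [Algebra k Ω]

/-- The inertia group of the valuation ring `W` of `Ω`, as a subgroup of `Gal(Ω/F)`: the
automorphisms of `Ω` over `F` that map `W` onto itself and act as the identity on its residue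
field. -/
noncomputable def inertia (W : ValuationSubring Ω) : Subgroup (Ω ≃ₐ[F] Ω) :=
  (W.inertiaSubgroup F).map (W.decompositionSubgroup F).subtype

/-- `F_U`, for a set `U` of valuation rings of `F`: the elements of `Ω` fixed by the inertia groups
of all valuation rings `W` of `Ω` with `W ∩ F ∈ U`.  If `Ω` is an algebraic closure of a field `F`
of characteristic zero, this is the maximal extension of `F` in `Ω` unramified over `U`. -/
noncomputable def unramified (U : Set (ValuationSubring F)) : IntermediateField F Ω :=
  ⨅ W : {W : ValuationSubring Ω // W.comap (algebraMap F Ω) ∈ U},
    IntermediateField.fixedField (inertia F Ω W.1)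

/-- `τ` acts as `σ` on the common elements of `K` and `M`: `τ z = σ c` if `z = c` in `Ω`. -/
def ActsAs {K M Ω : Type} [Field K] [Field M] [Field Ω] (i : K →+* Ω) (j : M →+* Ω) (σ : K → K)
    (τ : M → M) : Prop :=
  ∀ c z, j z = i c → j (τ z) = i (σ c)

/-- Let `k ⊆ K ⊆ Ω` and `F ⊆ N ⊆ Ω` be fields.  A splitting of `Gal(N/F) → Gal(K/k)`: a continuous
homomorphism `s` from `Gal(K/k)` to `Gal(N/F)` such that `s(σ)` acts as `σ` on the elements of
`K ∩ N`. -/
structure Splitting (K N : Type) [Field K] [Field N] [Algebra k K] [Algebra F N] [Algebra K Ω]
    [Algebra N Ω] where
  /-- the homomorphism `Gal(K/k) → Gal(N/F)` -/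
  toHom : (K ≃ₐ[k] K) →* (N ≃ₐ[F] N)
  cont : Continuous toHom
  compat : ∀ σ : K ≃ₐ[k] K, ActsAs (algebraMap K Ω) (algebraMap N Ω) σ (toHom σ)

end definitions

section curves

variable {k : Type} [Field k]

/-- `(x, y)` is a point with coordinates in the field `F` of the curve `a y^n = f(x)` over `k`. -/
def IsPoint (n : ℕ) (a : k) (f : k[X]) {F : Type} [Field F] [Algebra k F] (x y : F) : Prop :=
  algebraMap k F a * y ^ n = aeval x f

/-- Let `F` be any field over `k` that contains a point `(x, y)` of the curve, for instance the
function field of the curve or of a curve that dominates it.  Then no valuation ring `O` of `F` with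
`k ⊆ O` has the residue field `k`. -/
def NoRationalPlace (n : ℕ) (a : k) (f : k[X]) : Prop :=
  ∀ (F : Type) [Field F] [Algebra k F] (x y : F), IsPoint n a f x y →
    ∀ O : ValuationSubring F, (∀ c : k, algebraMap k F c ∈ O) →
      ¬ ∀ u ∈ O, ∃ c : k, u - algebraMap k F c ∈ O.nonunits

/-- Let `F` be any field over `k` that contains a point `(x, y)` of the curve, for instance the
function field of the curve or of a curve that dominates it, and let `Ω` be an algebraic closure of
`F`.  Then for every set `U` of valuation rings of `F` over `k` there is no section of
`π₁(U) → G_k`. -/
def NoSection (n : ℕ) (a : k) (f : k[X]) : Prop :=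
  ∀ (F Ω : Type) [Field F] [Field Ω] [Algebra k F] [Algebra F Ω] [Algebra k Ω]
    [IsScalarTower k F Ω] [IsAlgClosure F Ω] (x y : F)
    (U : Set (ValuationSubring F)), IsPoint n a f x y →
    (∀ O ∈ U, ∀ c : k, algebraMap k F c ∈ O) →
      IsEmpty (Splitting k F Ω (algebraicClosure k Ω) (unramified F Ω U))

end curves

open Pool.Agent.J4H44.FP Pool.Agent.J4H44.DG in
lemma of_fine {k : Type} [Field k] {n : ℕ} (a : k) (ha : a ≠ 0) (f : k[X]) (hdf : n ∣ f.natDegree)
    (h : FineN n a f) : NoRationalPlace n a f ∧ NoSection n a f := by
  obtain ⟨ℓ, hℓ, ⟨n', rfl⟩, h1, h2, h3, -⟩ := h
  have hpt : ∀ {F : Type} [Field F] [Algebra k F] (x y : F), IsPoint (ℓ * n') a f x y →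
      algebraMap k F a * (y ^ n') ^ ℓ = aeval x f := by
    intro F _ _ x y hxy
    rw [← pow_mul, mul_comm n' ℓ]
    exact hxy
  refine ⟨?_, ?_⟩
  · intro F _ _ x y hxy O hO hres
    exact no_place hℓ.pos a ha (fun _ : Fin 0 => (0 : k)) (fun i => i.elim0) f (fun _ => 0)
      (dvd_of_mul_right_dvd hdf) h2 h3 F x (y ^ n') (fun i => i.elim0) (hpt x y hxy)
      (fun i => i.elim0) O hO hres
  · intro F Ω _ _ _ _ _ _ _ x y U hxy hU
    have hcl : IsAlgClosed Ω := IsAlgClosure.isAlgClosed F
    have halg : Algebra.IsAlgebraic F Ω := IsAlgClosure.isAlgebraic
    have h5 := h1 F Ω U hU x (y ^ n') (fun i => i.elim0) (hpt x y hxy) (fun i => i.elim0)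
    exact ⟨fun s => h5.false ⟨s.toHom, s.cont, s.compat⟩⟩

/-- For all squarefree `n > 1` and all `D ≥ 3` divisible by `n` there is an `N` such that for all henselian
discrete valuation rings `A` with a finite residue field of more than `N` elements in which `n` is a unit,
with fraction field `k` of characteristic zero, for all monic `f ∈ A[x]` of degree `D` with separable
reduction and all `a ∈ k^×` the curve `a y^n = f(x)` has a point over `k`, or it has neither rational places
nor sections. -/
theorem result (n D : ℕ) (hn : 1 < n) (hsq : Squarefree n) (hnD : n ∣ D) (hD : 3 ≤ D) :
    ∃ N : ℕ, ∀ (A k : Type) [CommRing A] [IsDomain A] [IsDiscreteValuationRing A]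
      [HenselianLocalRing A] [Finite (IsLocalRing.ResidueField A)] [Field k] [CharZero k]
      [Algebra A k] [IsFractionRing A k],
      N < Nat.card (IsLocalRing.ResidueField A) → IsUnit (n : A) →
      ∀ f : A[X], f.Monic → (f.map (IsLocalRing.residue A)).Separable → f.natDegree = D →
      ∀ a : k, a ≠ 0 →
        (∃ x y : k, IsPoint n a (f.map (algebraMap A k)) x y) ∨
          NoRationalPlace n a (f.map (algebraMap A k)) ∧
          NoSection n a (f.map (algebraMap A k)) := by
  obtain ⟨N, hN⟩ := Pool.Agent.J4H44.WS.dich n D hn hsq hnD hD
  refine ⟨N, ?_⟩
  intro A k _ _ _ _ _ _ _ _ _ hcard hu f hf hs hfD a ha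
  rcases hN A k hu hcard f hf hs hfD a ha with ⟨x, y, hxy⟩ | h
  · left
    refine ⟨x, y, ?_⟩
    have h1 : a * y ^ n = aeval x (f.map (algebraMap A k)) := hxy
    exact h1
  · right
    refine of_fine a ha _ ?_ h
    rw [hf.natDegree_map, hfD]
    exact hnD

end Pool.Agent.Results.MP_896029_ag.PointsOrNoSections
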